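import Pool.Agent.U554.TW.Top

/-!
# Density of the regulator and the cubic hypersurfaces `T(x, y, z) = 1`

Let `k` be a number field (for instance `k = ℚ`), considered as a subfield of `ℂ`. For a separated
scheme `X` of finite type over `k` let `O b m X` be the regulator

  `c : CH_b(X_ℂ, m) ⊗ ℚ → H_{m + 2 b}(X_ℂ, ℚ(b))`

from Bloch's higher Chow groups of `X_ℂ = X ⊗ ℂ` to the absolute Hodge (Borel-Moore) homology, with the
topology of the problem on the target. If `X` is smooth of pure dimension `d`, this is, with `j = d - b`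
and `i = 2 j - m`, the regulator `r : H^i_M(X_ℂ, ℚ(j)) → H^i_H(X_ℂ, ℚ(j))` of the problem.

Every scheme over `ℂ` which can be defined over a number field consists of connected components of `X_ℂ`
for a scheme `X` over `ℚ` (consider a scheme over a number field as a scheme over `ℚ`), so that for
`k = ℚ` the density for all smooth `X` over `k` is the assertion Q1.

For a trilinear form `T` in three blocks of `a₁`, `a₂`, `a₃` variables let `Y_T` be the smooth affine
hypersurface `T(x, y, z) = 1` of dimension `d = a₁ + a₂ + a₃ - 1`; `O (d - j) n (hypS T)` is the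
regulator `H^{2 j - n}_M(Y_T, ℚ(j)) → H^{2 j - n}_H(Y_T, ℚ(j))`.
-/

set_option autoImplicit false

open CategoryTheory AlgebraicGeometry MvPolynomial Pool.Agent.Y116.UV Pool.Agent.U554.TU
  Pool.Agent.U554.TW

universe w

namespace Pool.Agent.Results.MP_b2b689_ag.CubicHypersurfaces

/-- The map `c` has dense image. -/
def DenseImage (X : TReg.{w}) : Prop := DenseRange X.c

/-- The known properties of the regulators: the properties `IsTopTheory` (long exact sequences, homotopy
invariance, ...; see `Pool.Agent.U554.TW.Top`) and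

* `torsor`: homotopy invariance for affine bundles;
* `jouanolou`: smooth separated schemes of finite type have affine bundles with affine total space
  (Jouanolou, Thomason);
* `boundary`: `CH_b(X, m)` is a direct factor of `CH_b(X × 𝔾_m, m + 1)`, with the absolute Hodge
  homology (cup product with the coordinate, boundary at `0`).

(Bijective homomorphisms of the absolute Hodge homology which are induced by morphisms in the derived
category of mixed Hodge structures are open: let `V_ℂ / (V_ℚ + F^0 V)` and `V'_ℂ / (V'_ℚ + F^0 V')` be the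
parts `J`; as the groups `Hg` are countable, the image of `V_ℂ` and `F^0 V'` span a subspace of countable
index in `V'_ℂ`, that is, the whole space.) -/
structure IsRegulator {k : Type} [Field k] (O : ℤ → ℤ → Sch k → TReg.{w}) : Prop
    extends IsTopTheory O where
  torsor : BundleInvariant TReg.rel O
  jouanolou : ∀ X : Sch k, FT True X → Smooth X.hom → HasAffineBundle X
  boundary : ∀ (A : Type) [CommRing A] [Algebra k A] [Algebra.FiniteType k A] (b m : ℤ),
    TReg.Factor (O b m (aff k A)) (O b (m + 1) (aff k (LaurentPolynomial A)))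

lemma inherited : Inherited TReg.rel DenseImage.{w} := by
  rintro X Y ⟨s, r, -, h2⟩ hY
  have hr : DenseRange r.g := (show Function.Surjective r.g from fun b => ⟨s.g b, h2 b⟩).denseRange
  have h3 : DenseRange (r.g ∘ Y.c) := hr.comp hY r.cont
  refine h3.mono ?_
  rintro _ ⟨a, rfl⟩
  exact ⟨r.f a, (r.comm a).symm⟩

section

variable {k : Type} [Field k] {O : ℤ → ℤ → Sch k → TReg.{w}}

/-- Density for the affine schemes passes to the lower degrees. -/
lemma descend (hO : IsRegulator O) (d : ℕ) (m : ℤ)
    (h : ∀ (A : Type) [CommRing A] [Algebra k A] [Algebra.FiniteType k A] (b : ℤ),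
      DenseImage (O b (m + d) (aff k A))) :
    ∀ (A : Type) [CommRing A] [Algebra k A] [Algebra.FiniteType k A] (b : ℤ),
      DenseImage (O b m (aff k A)) := by
  induction d with
  | zero => simpa using h
  | succ d ih =>
    apply ih
    intro A _ _ _ b
    have h2 := hO.boundary A b (m + d)
    have h3 : Algebra.FiniteType k (LaurentPolynomial A) := ft_laurent A
    have h4 := h (LaurentPolynomial A) b
    rw [show m + ((d + 1 : ℕ) : ℤ) = m + d + 1 from by push_cast; ring] at h4
    exact inherited _ _ h2 h4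

/-- From an unbounded set of degrees for the affine schemes to all degrees. -/
lemma all_dense (hO : IsRegulator O) (S : Set ℤ) (hS : ∀ N : ℤ, ∃ n ∈ S, N ≤ n)
    (h : ∀ n ∈ S, ∀ (A : Type) [CommRing A] [Algebra k A] [Algebra.FiniteType k A] (b : ℤ),
      DenseImage (O b (n - 1) (aff k A))) (X : Sch k) (hX : FT True X) (hX' : HasAffineBundle X)
    (b m : ℤ) : DenseImage (O b m X) := by
  refine bundle_of_affine hO.torsor inherited m ?_ X hX hX' b
  obtain ⟨n, hn, hm⟩ := hS (m + 1)
  exact descend hO (n - 1 - m).toNat m fun A _ _ _ b => by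
    rw [show m + ((n - 1 - m).toNat : ℤ) = n - 1 from by omega]
    exact h n hn A b

end

/-- **Density of the regulator and the cubic hypersurfaces `T(x, y, z) = 1`.** Let `k` be a number field
in `ℂ`, and let `O b m X` have the known properties of the regulators
`CH_b(X_ℂ, m) ⊗ ℚ → H_{m + 2 b}(X_ℂ, ℚ(b))` to the absolute Hodge homology for the separated schemes `X` of
finite type over `k`. Let `S` be a set of integers which is not bounded above, and `s` a number. The
following assertions are equivalent:
* (for `k = ℚ` this is Q1) the regulators have dense image for all smooth `X` and all `b`, `m`;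
* the same for all separated schemes `X` of finite type over `k` which have an affine bundle with
  affine total space (all quasi-projective and all smooth `X`), and all `b`, `m`;
* the regulators `H^{2 j - n}_M(Y_T, ℚ(j)) → H^{2 j - n}_H(Y_T, ℚ(j))` have dense image for all trilinear
  forms `T` over `k`, all `j ≥ s` and all `n` in `S`.
If `k = ℚ`, the hypersurfaces `∑_{(i, j, k) ∈ H} x_i y_j z_k = 1`, `H` a finite set of triples, are
sufficient in the last assertion. -/
theorem result (k : Type) [Field k] [NumberField k] (_σ : k →+* ℂ)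
    (O : ℤ → ℤ → Sch k → TReg.{w}) (hO : IsRegulator O) (S : Set ℤ)
    (hS : ∀ N : ℤ, ∃ n ∈ S, N ≤ n) (s : ℕ) :
    List.TFAE [
      ∀ X : Sch k, FT True X → Smooth X.hom → ∀ b m : ℤ, DenseImage (O b m X),
      ∀ X : Sch k, FT True X → HasAffineBundle X → ∀ b m : ℤ, DenseImage (O b m X),
      ∀ (a₁ a₂ a₃ : ℕ) (T : Fin a₁ → Fin a₂ → Fin a₃ → k) (j : ℕ), s ≤ j → ∀ n ∈ S,
        DenseImage (O (a₁ + a₂ + a₃ - 1 - j) n (hypS T))] ∧
    (Nonempty (ℚ ≃+* k) →
      ((∀ X : Sch k, FT True X → Smooth X.hom → ∀ b m : ℤ, DenseImage (O b m X)) ↔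
        ∀ (a₁ a₂ a₃ : ℕ) (H : Finset (Fin a₁ × Fin a₂ × Fin a₃)) (j : ℕ), s ≤ j → ∀ n ∈ S,
          DenseImage (O (a₁ + a₂ + a₃ - 1 - j) n (tripS k H)))) := by
  have hT := hO.toIsTopTheory.isTheory
  have hsm : ∀ (a₁ a₂ a₃ : ℕ) (T : Fin a₁ → Fin a₂ → Fin a₃ → k), Smooth (hypS T).hom := by
    intro a₁ a₂ a₃ T
    change Smooth (Spec.map (CommRingCat.ofHom (algebraMap k (Hyp T))))
    rw [HasRingHomProperty.Spec_iff (P := @Smooth)]
    exact RingHom.smooth_algebraMap.mpr (hyp_smooth T)
  have hy : ∀ (C : Set k), 0 ∈ C → 1 ∈ C → Presents C →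
      (∀ (a₁ a₂ a₃ : ℕ) (T : Fin a₁ → Fin a₂ → Fin a₃ → k), (∀ i j l, T i j l ∈ C) →
        ∀ j : ℕ, s ≤ j → ∀ n ∈ S, DenseImage (O (a₁ + a₂ + a₃ - 1 - j) n (hypS T))) →
      ∀ X : Sch k, FT True X → HasAffineBundle X → ∀ b m : ℤ, DenseImage (O b m X) := by
    intro C h0 h1 hC h X hX hX' b m
    refine all_dense hO S hS (fun n hn A _ _ _ b => ?_) X hX hX' b m
    refine affine_of_hyp hT inherited h0 h1 hC s (n - 1) (fun a₁ a₂ a₃ T hT' j hj => ?_) A b
    rw [sub_add_cancel]
    exact h a₁ a₂ a₃ T hT' j hj n hn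
  refine ⟨?_, ?_⟩
  · tfae_have 2 → 1 := fun h X h1 h2 => h X h1 (hO.jouanolou X h1 h2)
    tfae_have 1 → 3 := fun h a₁ a₂ a₃ T j _ n _ => h _ (ft_aff True) (hsm _ _ _ T) _ _
    tfae_have 3 → 2 := fun h =>
      hy Set.univ trivial trivial presents_univ fun a₁ a₂ a₃ T _ j hj => h a₁ a₂ a₃ T j hj
    tfae_finish
  · rintro ⟨e⟩
    have hp : Presents ({0, 1} : Set k) := Pool.Agent.Q193.LT.presents_frac fun x => by
      refine ⟨(e.symm x).den, (e.symm x).num, ?_, ?_⟩
      · exact IsUnit.mk0 _ (by exact_mod_cast (e.symm x).den_ne_zero)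
      · have h1 : (((e.symm x).num : ℤ) : ℚ) = ((e.symm x).den : ℤ) * e.symm x := by
          push_cast
          rw [mul_comm]
          exact (Rat.mul_den_eq_num (e.symm x)).symm
        have h2 := congrArg e h1
        rwa [map_mul, e.apply_symm_apply, map_intCast, map_intCast] at h2
    constructor
    · intro h a₁ a₂ a₃ H j _ n _
      obtain ⟨T, -, hH⟩ := trip_hyp (R := k) H
      rw [← hH]
      exact h _ (ft_aff True) (hsm _ _ _ T) _ _
    · intro h X h1 h2
      refine hy {0, 1} (Or.inl rfl) (Or.inr rfl) hp (fun a₁ a₂ a₃ T hT' j hj => ?_) X h1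
        (hO.jouanolou X h1 h2)
      obtain ⟨H, hH⟩ := hyp_zero_one T hT'
      rw [hH]
      exact h a₁ a₂ a₃ H j hj

end Pool.Agent.Results.MP_b2b689_ag.CubicHypersurfaces
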