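import Pool.Agent.U374.Dn.Main
set_option autoImplicit false

/-!
Density of the regulator in weight `dim + 1` in every dimension, on the cycles of an affine variety.

Let `A` be an arbitrary commutative ring, for example the coordinate ring of a smooth affine variety
`X` of dimension `d ≥ 1` over a number field `k ⊆ ℂ`, and let `Z_1, ..., Z_r` be arbitrary closed smooth
`d`-chains in the space of the homomorphisms `A → ℂ` (in `X(ℂ)`). For `f_0, ..., f_d` in `A` and an
integer `c` with `|f_i| < c` on the `Z_j` the symbol `{c - f_0, ..., c - f_d}` of units of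
`A[1 / ∏ (c - f_i)]` has a regulator on every `Z_j`.

* These regulators satisfy all the real linear relations between the `Z_j` in the homology of `X`:
  if a real combination `∑ s_j Z_j` is such that the real parts of `(-i)^d ∫ f_0 df_1 ∧ ... ∧ df_d`
  vanish on it, for all `f_0, ..., f_d` in `A`, then it kills the vector of the regulators.
* There are finitely many `(f_(k,0), ..., f_(k,d))` such that for every large integer `c` the rational
  combinations of the vectors of the regulators of the symbols `{c - f_(k,0), ..., c - f_(k,d)}` are
  dense in the space of all vectors which satisfy these relations; the vectors themselves are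
  linearly independent over the real numbers.

If `A` is an algebra over a field `k ⊆ ℂ` which does not lie in `ℝ` (and the cycles induce this
embedding), then the relations are the real relations between the complex periods; for smooth `X`
these are the relations between the classes of the `Z_j` in `H_d(X(ℂ), ℝ)` (Grothendieck).
-/

namespace Pool.Agent.Results.MP_b2b689_ag.DensityAllDimensions

open Pool.Agent.U374.Dn

variable {A : Type*} [CommRing A] {n r : ℕ}

/-- multiplication of `f_0` by `x` -/
theorem period_update (Z : Cyc A (n + 1)) {x : A} {ζ : ℂ} (hx : ∀ l θ, Z.e l θ x = ζ)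
    (f : Fin (n + 2) → A) :
    Z.period (Function.update f 0 (x * f 0)) = ζ * Z.period f := by
  unfold Cyc.period
  rw [Finset.mul_sum]
  refine Finset.sum_congr rfl fun l _ => ?_
  rw [mul_left_comm, ← MeasureTheory.integral_const_mul ζ]
  congr 2
  funext θ
  have h : ∀ i : Fin (n + 1), Function.update f 0 (x * f 0) i.succ = f i.succ := fun i =>
    Function.update_of_ne (Fin.succ_ne_zero i) _ _
  rw [Function.update_self, map_mul, hx, mul_assoc]
  simp only [h]

/-- Let `A` be a commutative ring, `d = n + 1 ≥ 1`, and let `Z_1, ..., Z_r` be closed `d`-chains of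
twice continuously differentiable singular cubes in the space of the homomorphisms `A → ℂ`.

(1) If `c > 0` is an integer and `f_0, ..., f_d` are elements of `A` with `|f_i| < c` on all `Z_j`, then
the vector of the regulators of the symbol `{c - f_0, ..., c - f_d}` on the `Z_j` is compatible with
the relations between the periods of the `Z_j`.

(2) There are `m` and families `f_k = (f_(k,0), ..., f_(k,d))`, `k = 1, ..., m`, of elements of `A` such
that for every large integer `c` the vectors of the regulators of the symbols
`{c - f_(k,0), ..., c - f_(k,d)}` are linearly independent over `ℝ`, and the closure of the set of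
their rational combinations is the space of all vectors in `ℝ^r` which are compatible with the
relations.

(3) If some element of `A` takes the same non-real value on all `Z_j`, then the relations are the real
linear relations between the complex periods of the `Z_j`. -/
theorem result (Z : Fin r → Cyc A (n + 1)) :
    (∀ (c : ℕ) (f : Fin (n + 2) → A), 0 < c → (∀ j, (Z j).Small f c) →
      Compatible Z fun j => (Z j).reg fun i => (c : A) - f i) ∧
    (∃ (m : ℕ) (f : Fin m → Fin (n + 2) → A) (C : ℕ), ∀ c : ℕ, C ≤ c →
      (∀ k j, (Z j).Small (f k) c) ∧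
      LinearIndependent ℝ (fun k j => (Z j).reg fun i => (c : A) - f k i) ∧
      closure (Set.range fun (q : Fin m → ℚ) j =>
        ∑ k, (q k : ℝ) * (Z j).reg fun i => (c : A) - f k i) = {ρ | Compatible Z ρ}) ∧
    (∀ (x : A) (ζ : ℂ), ζ.im ≠ 0 → (∀ j l θ, (Z j).e l θ x = ζ) → ∀ s : Fin r → ℝ,
      (∀ f : Fin (n + 2) → A,
        ∑ j, s j * ((-Complex.I) ^ (n + 1) * (Z j).period f).re = 0) ↔
      ∀ f : Fin (n + 2) → A, ∑ j, (s j : ℂ) * (Z j).period f = 0) := by
  refine ⟨fun c f hc hf => compatible_regv Z hc hf, ?_, fun x ζ hζ hx s => ⟨fun h f => ?_, fun h f => ?_⟩⟩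
  · obtain ⟨m, f, C, h⟩ := exists_family Z
    refine ⟨m, f, C, fun c hc => ⟨(h c hc).1, (h c hc).2.1, ?_⟩⟩
    rw [← (h c hc).2.2]
    congr 2
    funext q j
    rw [Finset.sum_apply]
    rfl
  · have e : ∀ (w : Fin r → ℂ), ∑ j, s j * ((-Complex.I) ^ (n + 1) * w j).re =
        ((-Complex.I) ^ (n + 1) * ∑ j, (s j : ℂ) * w j).re := by
      intro w
      rw [Finset.mul_sum, Complex.re_sum]
      refine Finset.sum_congr rfl fun j _ => ?_
      rw [mul_left_comm, Complex.re_ofReal_mul]
    have h1 := h f
    have h2 := h (Function.update f 0 (x * f 0))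
    simp only [fun j => period_update (Z j) (hx j) f] at h2
    rw [e] at h1 h2
    have h3 : (-Complex.I) ^ (n + 1) * ∑ j, (s j : ℂ) * (ζ * (Z j).period f) =
        ζ * ((-Complex.I) ^ (n + 1) * ∑ j, (s j : ℂ) * (Z j).period f) := by
      rw [mul_left_comm, Finset.mul_sum (a := ζ)]
      congr 2
      funext j
      ring
    rw [h3] at h2
    set w := (-Complex.I) ^ (n + 1) * ∑ j, (s j : ℂ) * (Z j).period f with hw
    have h4 : w.im = 0 := by
      rw [Complex.mul_re, h1, mul_zero, zero_sub, neg_eq_zero] at h2
      exact (mul_eq_zero.1 h2).resolve_left hζ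
    have h5 : w = 0 := Complex.ext h1 h4
    rw [hw] at h5
    exact (mul_eq_zero.1 h5).resolve_left (pow_ne_zero _ (neg_ne_zero.2 Complex.I_ne_zero))
  · have e : ∑ j, s j * ((-Complex.I) ^ (n + 1) * (Z j).period f).re =
        ((-Complex.I) ^ (n + 1) * ∑ j, (s j : ℂ) * (Z j).period f).re := by
      rw [Finset.mul_sum, Complex.re_sum]
      refine Finset.sum_congr rfl fun j _ => ?_
      rw [mul_left_comm, Complex.re_ofReal_mul]
    rw [e, h f, mul_zero, Complex.zero_re]

end Pool.Agent.Results.MP_b2b689_ag.DensityAllDimensions
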