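import Pool.Agent.U227.RegFix

/-!
# Density of the regulator and quotients by finite groups

Let a finite group `G` act on a smooth variety `X`, the variety and the action being defined over a number
field. Let `A` be the motivic cohomology `H^i(X, ℚ(j))`, let `W` be the absolute Hodge cohomology of `X` in
the same degrees with its topology, and `r : A → W` the regulator. The group acts on `A` and `W`, on `W` by
continuous maps, and `r` is equivariant; the addition of `W` and the multiplications with rational numbers
are continuous. These are the data.

If `H` is a subgroup which acts freely on `X`, then `X/H` is a smooth variety, which is defined over a number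
field, and its motivic cohomology and absolute Hodge cohomology are the parts of `A` and `W` fixed by `H`. So
the density of the regulator of `X/H` is the statement `DenseOn H`: every element of `W` fixed by `H` is a
limit of images of elements of `A` fixed by `H`. (For other subgroups we take this as the definition of the
density for the quotient.) We show:

1. The regulator of `X/H` has dense image if and only if no irreducible rational representation of `G` which
   occurs in `W` modulo the closure of the image of `r` has a nonzero vector fixed by `H`.
2. If `N` acts trivially on `W` (for example if it is contained in a connected algebraic group which acts on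
   `X`), then density for `X` is equivalent to density for `X/N`, and density for `X/H` to density for the
   quotient by the subgroup generated by `H` and `N`.
3. If `c` is an involution, then density for `X` is equivalent to density for `X/c` and `X/[G,c]`; if `c` is
   contained in a nonabelian simple subgroup, to density for `X/c`; if a subgroup is partitioned into
   subgroups `D_j`, at least two, to density for all `X/D_j`; if `G` is commutative, to density for all
   `X/K`, `G/K` cyclic.
4. If the image is not dense for `X`, but for `X/H` for all subgroups `H` of prime order, then an irreducible
   rational representation in which the elements different from one fix only `0` occurs in `W` modulo the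
   closure of the image, the commutative subgroups and the subgroups of order `p q` of `G` are cyclic, and
   `G` has at most one involution.

The group theoretic criteria in 3 and 4 are from the library (`X252`, `X328`).
-/

open Pool.Agent.X252.GA Pool.Agent.X252.SCT Pool.Agent.U227.Grp Pool.Agent.U227.Reg

universe w

namespace Pool.Agent.Results.MP_b2b689_ag.EtaleQuotients

/-- **Density of the regulator and quotients by finite groups.** -/
theorem result {G : Type} [Group G] [Finite G] {A W : Type w} [AddCommGroup A] [Module ℚ A]
    [AddCommGroup W] [Module ℚ W] [TopologicalSpace W] [ContinuousAdd W] [ContinuousConstSMul ℚ W]
    (D : Regulator G A W) :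
    (∀ H : Subgroup G, D.DenseOn H ↔
      ∀ (V : Type) [AddCommGroup V] [Module ℚ V] (ρ : G →* Module.End ℚ V), Irred ρ →
        D.Obstructs ρ → ¬ HasFixed ρ H) ∧
    (∀ N : Subgroup G, (∀ g ∈ N, ∀ w : W, D.actW g w = w) →
      (DenseRange D.r ↔ D.DenseOn N) ∧ ∀ H : Subgroup G, D.DenseOn H ↔ D.DenseOn (H ⊔ N)) ∧
    QuotientLaws (DenseRange D.r) D.DenseOn ∧
    (¬ DenseRange D.r → AtPrimes D.DenseOn →
      (∃ (V : Type) (_ : AddCommGroup V) (_ : Module ℚ V) (ρ : G →* Module.End ℚ V),
        IsFree ρ ∧ D.Obstructs ρ) ∧ CyclicSubgroups G) := by
  have : Fintype G := Fintype.ofFinite G
  exact D.density

end Pool.Agent.Results.MP_b2b689_ag.EtaleQuotients
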