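import Pool.Agent.U483.KD.Main

/-!
# Density of the regulator and the Grothendieck ring of varieties

`𝓜` is the category of the Chow motives with rational coefficients over a field `k` which is algebraic over `ℚ`
(`k = ℚ̄`), and `H.h X` is the motive of the smooth projective `X`. For `t = (i, j)` with `i < 2 j` the map `(r t).reg A` is
Beilinson's regulator `H^i_M(A_ℂ, ℚ(j)) ⟶ H^i_D(A_ℂ, ℝ(j))` to the Deligne cohomology with real coefficients, a finite-dimensional
real vector space; it is the quotient of `J^{i,j}` by the closure of zero. For `t = j` the map `(c t).reg A` is the cycle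
class map `CH^j(A_ℂ) ⟶ Hg^{2j,j}(A)` to the space of the Hodge classes. A `ℚ`-subspace of a finite-dimensional real
vector space is dense if and only if it spans the space, so for a smooth projective `X` the regulators have dense images for
all `i`, `j` (Q1) if and only if the images span the targets: `Dense X`.

* `Dense X` holds if and only if a multiple of the class of `X` is in the subgroup of `K_0(Var_k)` generated by the classes
  of the smooth projective `Y` with `Dense Y`. If `n [X] = n [X']`, `n ≠ 0`, then `Dense X` holds if and only if `Dense X'` holds.
* If `Dense` is true in dimension at most `D` (`D = 0` is a theorem of Borel), it is true for all smooth projective `X`,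
  in arbitrary dimension, such that a multiple of the class is a combination of classes of (open or singular)
  schemes of dimension at most `D` and of smooth projective `Y` with `Dense Y`.

The cokernels have finite dimension; their dimensions are additive functions of Chow motives. It is not used that
Chow motives satisfy the theorem of Krull and Schmidt.
-/

set_option autoImplicit false

open CategoryTheory CategoryTheory.Limits AlgebraicGeometry Pool.Agent.Y116.UV
  Pool.Agent.U483.KM Pool.Agent.U483.GU Pool.Agent.U483.KS Pool.Agent.U483.KD

namespace Pool.Agent.Results.MP_b2b689_ag.GrothendieckRing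

universe w x

/-- The real regulators `r t` and the cycle class maps `c t` of the smooth projective `X` have dense images. -/
def Dense {k : Type} [Field k] {𝓜 : Type w} [Category.{x} 𝓜] [Preadditive 𝓜]
    [HasBinaryBiproducts 𝓜] (H : ChowMotives.{w, x} k 𝓜) {ι ι' : Type}
    (r : ι → Regulator.{w, x} ℝ 𝓜) (c : ι' → Regulator.{w, x} ℚ 𝓜) (X : Sch k) : Prop :=
  (∀ t, (r t).Spans (H.h X)) ∧ ∀ t, (c t).Spans (H.h X)

theorem result (k : Type) [Field k] (𝓜 : Type w) [Category.{x} 𝓜] [Preadditive 𝓜]
    [HasBinaryBiproducts 𝓜] (H : ChowMotives.{w, x} k 𝓜)
    -- the regulators to real Deligne cohomology for `t = (i, j)`, and the cycle class maps for `t = j`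
    (r : {t : ℤ × ℤ // t.1 < 2 * t.2} → Regulator.{w, x} ℝ 𝓜) (c : ℤ → Regulator.{w, x} ℚ 𝓜) :
    Detected (Dense H r c) ∧ DetectedByDimension (Dense H r c) :=
  detected_regulators H r c fun _ _ => Iff.rfl

end Pool.Agent.Results.MP_b2b689_ag.GrothendieckRing
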